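import Pool.Agent.H21.Mst

set_option autoImplicit false

namespace Pool.Agent.Results.MP_3865e9_co.Six

open Matrix Complex Pool.Agent.H21.Mst

theorem result : ∃ (n : ℕ) (r : Fin n → Fin n → Prop) (S : Finset (Fin n)),
    (∀ u v, r u v → ¬ r v u) ∧ 4 < S.card ∧ ∀ a ∈ S, ∀ b ∈ S, a ≠ b → ∃ (t : ℝ) (α : ℂ),
      NormedSpace.exp ((I * t) • (I • skew r)) *ᵥ Pi.single a 1 = α • Pi.single b 1 := by
  refine ⟨72, r, Finset.univ.image a, asym, by decide +kernel, ?_⟩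
  simp only [Finset.forall_mem_image]
  intro s _ s' _ _
  obtain ⟨t, h⟩ := pst s s'
  refine ⟨-t, 1, ?_⟩
  rw [one_smul, ← h, smul_smul]
  congr 3
  push_cast
  linear_combination (-t : ℂ) * I_mul_I

end Pool.Agent.Results.MP_3865e9_co.Six
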